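import Mathlib
import Pool.Agent.H686R4.ShkC

/-!
The universal group `GU` of `Pool.Agent.H686R4` is Polish.
-/

set_option autoImplicit false

open Set Filter Topology Pool.Agent.H686R4

namespace Pool.Agent.Y381.Shk

/-- the values of an isometry and of its inverse on the dense sequence -/
noncomputable def ev2 (g : GU) : (ℕ → UU) × (ℕ → UU) := (ev g, ev g⁻¹)

theorem continuous_ev : Continuous ev := isInducing_ev.continuous

theorem isInducing_ev2 : IsInducing ev2 := by
  have hc : Continuous ev2 := by
    have hinv : Continuous (fun g : GU => g⁻¹) := isTopologicalGroup_GU.continuous_inv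
    exact continuous_ev.prodMk (continuous_ev.comp hinv)
  have h1 : IsInducing (Prod.fst ∘ ev2) := isInducing_ev
  exact IsInducing.of_comp hc continuous_fst h1

theorem injective_ev2 : Function.Injective ev2 := by
  intro g h hgh
  have h1 : ev g = ev h := congrArg Prod.fst hgh
  have hc1 : Continuous (ap g) := (show UU ≃ᵢ UU from g).continuous
  have hc2 : Continuous (ap h) := (show UU ≃ᵢ UU from h).continuous
  apply ap_ext
  have := denseRange_pt.equalizer hc1 hc2 (by funext n; exact congrFun h1 n)
  intro x
  exact congrFun this x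

/-- the range of `ev2` -/
def rg : Set ((ℕ → UU) × (ℕ → UU)) :=
  {p | (∀ m n, dist (p.1 m) (p.1 n) = dist (pt m) (pt n)) ∧
    ∀ m n, dist (p.1 m) (pt n) = dist (pt m) (p.2 n)}

theorem isClosed_rg : IsClosed rg := by
  have h1 : ∀ m, Continuous (fun p : (ℕ → UU) × (ℕ → UU) => p.1 m) := fun m =>
    (continuous_apply m).comp continuous_fst
  have h2 : ∀ m, Continuous (fun p : (ℕ → UU) × (ℕ → UU) => p.2 m) := fun m =>
    (continuous_apply m).comp continuous_snd
  have e : rg = (⋂ m, ⋂ n, {p : (ℕ → UU) × (ℕ → UU) | dist (p.1 m) (p.1 n) = dist (pt m) (pt n)}) ∩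
      ⋂ m, ⋂ n, {p : (ℕ → UU) × (ℕ → UU) | dist (p.1 m) (pt n) = dist (pt m) (p.2 n)} := by
    ext p
    simp only [rg, mem_ofPred_eq, mem_inter_iff, mem_iInter]
  rw [e]
  apply IsClosed.inter
  · exact isClosed_iInter fun m => isClosed_iInter fun n =>
      isClosed_eq ((h1 m).dist (h1 n)) continuous_const
  · exact isClosed_iInter fun m => isClosed_iInter fun n =>
      isClosed_eq ((h1 m).dist continuous_const) (continuous_const.dist (h2 n))

/-- a sequence isometric to the dense sequence defines an isometry -/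
theorem exists_isometry (a : ℕ → UU) (ha : ∀ m n, dist (a m) (a n) = dist (pt m) (pt n)) :
    ∃ f : UU → UU, Isometry f ∧ ∀ n, f (pt n) = a n := by
  let ι : U0 → UU := fun i => a (toN i)
  have hι : Isometry ι := by
    refine Isometry.of_dist_eq ?_
    intro m n
    show dist (a (toN m)) (a (toN n)) = DD (toN m) (toN n)
    rw [ha, dist_pt]
  refine ⟨UniformSpace.Completion.extension ι, hι.completion_extension, fun n => ?_⟩
  exact UniformSpace.Completion.extension_coe hι.uniformContinuous (ofN n)

theorem range_ev2 : range ev2 = rg := by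
  apply Subset.antisymm
  · rintro _ ⟨g, rfl⟩
    refine ⟨fun m n => ap_dist g _ _, fun m n => ?_⟩
    show dist (ap g (pt m)) (pt n) = dist (pt m) (ap g⁻¹ (pt n))
    have h1 := ap_dist g⁻¹ (ap g (pt m)) (pt n)
    rw [ap_inv'] at h1
    exact h1.symm
  · rintro ⟨a, b⟩ ⟨h1, h2⟩
    simp only at h1 h2
    obtain ⟨f, hf, hfa⟩ := exists_isometry a h1
    have hsurj : Function.Surjective f := by
      have hcl : IsClosed (range f) := hf.isClosedEmbedding.isClosed_range
      have hpt : ∀ n, pt n ∈ range f := by
        intro n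
        rw [← hcl.closure_eq, Metric.mem_closure_iff]
        intro ε hε
        obtain ⟨m, hm⟩ := denseRange_pt.exists_dist_lt (b n) hε
        refine ⟨f (pt m), ⟨pt m, rfl⟩, ?_⟩
        rw [hfa, dist_comm, h2, dist_comm]
        exact hm
      intro x
      have h3 : x ∈ closure (range pt) := denseRange_pt x
      have h4 : closure (range pt) ⊆ range f :=
        hcl.closure_subset_iff.2 (by rintro _ ⟨n, rfl⟩; exact hpt n)
      exact h4 h3
    let E : UU ≃ᵢ UU := ⟨Equiv.ofBijective f ⟨hf.injective, hsurj⟩, hf⟩
    let g : GU := E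
    have hg : ∀ x, ap g x = f x := fun _ => rfl
    refine ⟨g, ?_⟩
    have e1 : ev g = a := by
      funext n
      show ap g (pt n) = a n
      rw [hg, hfa]
    have e2 : ev g⁻¹ = b := by
      funext n
      show ap g⁻¹ (pt n) = b n
      have h3 : ∀ m, dist (pt m) (ap g⁻¹ (pt n)) = dist (pt m) (b n) := by
        intro m
        rw [← h2, ← hfa, ← hg, ← ap_dist g (pt m), ap_inv]
      by_contra hne
      have hpos : 0 < dist (ap g⁻¹ (pt n)) (b n) := dist_pos.2 hne
      obtain ⟨m, hm⟩ := denseRange_pt.exists_dist_lt (b n) (half_pos hpos)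
      have h4 := h3 m
      have h5 := dist_triangle (ap g⁻¹ (pt n)) (pt m) (b n)
      rw [dist_comm (ap g⁻¹ (pt n)) (pt m), h4, dist_comm (pt m) (b n)] at h5
      linarith
    show (ev g, ev g⁻¹) = (a, b)
    rw [e1, e2]

theorem polish_GU : PolishSpace GU := by
  have hU : PolishSpace UU := by
    have : CompleteSpace UU := inferInstance
    infer_instance
  have h1 : IsClosedEmbedding ev2 := ⟨⟨isInducing_ev2, injective_ev2⟩, by
    rw [range_ev2]
    exact isClosed_rg⟩
  exact h1.polishSpace

end Pool.Agent.Y381.Shk
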