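import Mathlib
import Pool.Agent.H686R4.ShkC

/-!
The space `UU` has the extension property of the Urysohn space.
-/

set_option autoImplicit false

open Set Filter Topology Pool.Agent.H686R4

namespace Pool.Agent.Y381.Shk

/-- Katetov functions on a finite family of points -/
structure Kt {ι : Type} (x : ι → UU) (f : ι → ℝ) : Prop where
  lip : ∀ i j, f i ≤ f j + dist (x j) (x i)
  sum : ∀ i j, dist (x i) (x j) ≤ f i + f j

section

variable {ι : Type} [Fintype ι] [Nonempty ι]

/-- the largest extension -/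
noncomputable def gg (x : ι → UU) (f : ι → ℝ) (u : UU) : ℝ :=
  Finset.univ.inf' Finset.univ_nonempty (fun i => f i + dist (x i) u)

theorem gg_le (x : ι → UU) (f : ι → ℝ) (u : UU) (i : ι) : gg x f u ≤ f i + dist (x i) u :=
  Finset.inf'_le (fun i => f i + dist (x i) u) (Finset.mem_univ i)

theorem gg_eq (x : ι → UU) (f : ι → ℝ) (u : UU) : ∃ i, gg x f u = f i + dist (x i) u := by
  obtain ⟨i, -, h⟩ := Finset.exists_mem_eq_inf' (s := (Finset.univ : Finset ι))
    Finset.univ_nonempty (fun i => f i + dist (x i) u)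
  exact ⟨i, h⟩

theorem gg_x {x : ι → UU} {f : ι → ℝ} (h : Kt x f) (i : ι) : gg x f (x i) = f i := by
  apply le_antisymm
  · have := gg_le x f (x i) i
    rwa [dist_self, add_zero] at this
  · obtain ⟨j, hj⟩ := gg_eq x f (x i)
    rw [hj]
    exact h.lip i j

theorem gg_lip (x : ι → UU) (f : ι → ℝ) (u v : UU) : gg x f u ≤ gg x f v + dist v u := by
  obtain ⟨i, hi⟩ := gg_eq x f v
  have h1 := gg_le x f u i
  have h2 := dist_triangle (x i) v u
  linarith

theorem gg_sum {x : ι → UU} {f : ι → ℝ} (h : Kt x f) (u v : UU) :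
    dist u v ≤ gg x f u + gg x f v := by
  obtain ⟨i, hi⟩ := gg_eq x f u
  obtain ⟨j, hj⟩ := gg_eq x f v
  have h1 := dist_triangle4 u (x i) (x j) v
  have h2 := h.sum i j
  rw [dist_comm u (x i)] at h1
  linarith

/-- approximate extension -/
theorem approx {x : ι → UU} {f : ι → ℝ} (h : Kt x f) {ε : ℝ} (hε : 0 < ε) :
    ∃ y : UU, ∀ i, |dist y (x i) - f i| ≤ ε := by
  have hm : ∀ i, ∃ m : ℕ, dist (x i) (pt m) < ε / 4 := fun i =>
    denseRange_pt.exists_dist_lt (x i) (by positivity)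
  choose m hm using hm
  obtain ⟨n0, hn0⟩ : ∃ n0, n0 = Finset.univ.sup m + 1 := ⟨_, rfl⟩
  have hmn : ∀ i, m i < n0 := by
    intro i
    have : m i ≤ Finset.univ.sup m := Finset.le_sup (Finset.mem_univ i)
    omega
  have hK : Kat n0 DD (fun j => gg x f (pt j)) := by
    refine ⟨fun i _ j _ => ?_, fun i _ j _ => ?_⟩
    · rw [← dist_pt]
      exact gg_lip x f _ _
    · rw [← dist_pt]
      exact gg_sum h _ _
  obtain ⟨n, -, -, hn, -⟩ := DD_rich n0 _ (ε / 4) 0 (by omega) hK (by positivity)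
  refine ⟨pt n, fun i => ?_⟩
  have h1 := hn (m i) (hmn i)
  rw [← dist_pt, abs_le] at h1
  obtain ⟨h2, h3⟩ := h1
  have h4 := hm i
  have h5 := gg_lip x f (pt (m i)) (x i)
  have h6 := gg_lip x f (x i) (pt (m i))
  rw [gg_x h] at h5 h6
  rw [dist_comm (pt (m i)) (x i)] at h6
  have h7 := dist_triangle (pt n) (pt (m i)) (x i)
  have h8 := dist_triangle (pt n) (x i) (pt (m i))
  rw [dist_comm (pt (m i)) (x i)] at h7
  rw [abs_le]
  constructor <;> linarith

/-- improvement of an approximate solution -/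
theorem step {x : ι → UU} {f : ι → ℝ} (h : Kt x f) {ε δ : ℝ} (hδ : 0 < δ) {y : UU}
    (hy : ∀ i, |dist y (x i) - f i| ≤ ε) :
    ∃ y' : UU, (∀ i, |dist y' (x i) - f i| ≤ δ) ∧ dist y y' ≤ ε + δ := by
  obtain ⟨i0, -, hi0⟩ := Finset.exists_mem_eq_sup' (s := (Finset.univ : Finset ι))
    Finset.univ_nonempty (fun i => |dist y (x i) - f i|)
  obtain ⟨e, he⟩ : ∃ e, e = |dist y (x i0) - f i0| := ⟨_, rfl⟩
  have hle : ∀ i, |dist y (x i) - f i| ≤ e := by
    intro i
    rw [he, ← hi0]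
    exact Finset.le_sup' (fun i => |dist y (x i) - f i|) (Finset.mem_univ i)
  have heε : e ≤ ε := by rw [he]; exact hy i0
  have he0 : 0 ≤ e := by rw [he]; exact abs_nonneg _
  have hkey : ∀ i, e ≤ f i + dist (x i) y := by
    intro i
    rw [he, abs_le]
    have h1 := h.sum i0 i
    have h2 := h.lip i0 i
    have h3 := dist_triangle y (x i) (x i0)
    have h4 := dist_triangle (x i) y (x i0)
    rw [dist_comm y (x i)] at h3
    rw [dist_comm (x i0) (x i)] at h1
    constructor <;> linarith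
  let x' : Option ι → UU := fun o => o.elim y x
  let f' : Option ι → ℝ := fun o => o.elim e f
  have hK : Kt x' f' := by
    constructor
    · rintro (_ | i) (_ | j)
      · show e ≤ e + dist y y
        rw [dist_self, add_zero]
      · show e ≤ f j + dist (x j) y
        exact hkey j
      · show f i ≤ e + dist y (x i)
        have := (abs_le.1 (hle i)).1
        linarith
      · exact h.lip i j
    · rintro (_ | i) (_ | j)
      · show dist y y ≤ e + e
        rw [dist_self]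
        linarith
      · show dist y (x j) ≤ e + f j
        have := (abs_le.1 (hle j)).2
        linarith
      · show dist (x i) y ≤ f i + e
        rw [dist_comm]
        have := (abs_le.1 (hle i)).2
        linarith
      · exact h.sum i j
  obtain ⟨y', hy'⟩ := approx hK hδ
  refine ⟨y', fun i => hy' (some i), ?_⟩
  have h1 : |dist y' y - e| ≤ δ := hy' none
  have h2 := (abs_le.1 h1).2
  rw [dist_comm]
  linarith

/-- exact extension -/
theorem exact_ext {x : ι → UU} {f : ι → ℝ} (h : Kt x f) : ∃ z : UU, ∀ i, dist z (x i) = f i := by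
  obtain ⟨y0, hy0⟩ := approx h one_pos
  have hstep : ∀ (n : ℕ) (y : UU), (∀ i, |dist y (x i) - f i| ≤ (1 / 2 : ℝ) ^ n) →
      ∃ y' : UU, (∀ i, |dist y' (x i) - f i| ≤ (1 / 2 : ℝ) ^ (n + 1)) ∧
        dist y y' ≤ (1 / 2 : ℝ) ^ n + (1 / 2 : ℝ) ^ (n + 1) :=
    fun n y hy => step h (by positivity) hy
  choose F hF using hstep
  let s : ∀ n : ℕ, {y : UU // ∀ i, |dist y (x i) - f i| ≤ (1 / 2 : ℝ) ^ n} := fun n =>
    Nat.rec ⟨y0, fun i => by rw [pow_zero]; exact hy0 i⟩
      (fun n p => ⟨F n p.1 p.2, (hF n p.1 p.2).1⟩) n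
  have hd : ∀ n, dist (s n).1 (s (n + 1)).1 ≤ 2 * (1 / 2 : ℝ) ^ n := by
    intro n
    have h1 : dist (s n).1 (s (n + 1)).1 ≤ (1 / 2 : ℝ) ^ n + (1 / 2 : ℝ) ^ (n + 1) :=
      (hF n (s n).1 (s n).2).2
    have h3 : (1 / 2 : ℝ) ^ (n + 1) = (1 / 2) ^ n * (1 / 2) := pow_succ _ _
    have h2 : (0 : ℝ) < (1 / 2) ^ n := by positivity
    linarith
  have hc : CauchySeq (fun n => (s n).1) :=
    cauchySeq_of_le_geometric (1 / 2) 2 (by norm_num) hd
  obtain ⟨z, hz⟩ := cauchySeq_tendsto_of_complete hc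
  refine ⟨z, fun i => ?_⟩
  have h1 : Tendsto (fun n => dist (s n).1 (x i)) atTop (𝓝 (dist z (x i))) :=
    hz.dist tendsto_const_nhds
  have h2 : Tendsto (fun n => dist (s n).1 (x i)) atTop (𝓝 (f i)) := by
    rw [tendsto_iff_norm_sub_tendsto_zero]
    apply squeeze_zero (fun _ => norm_nonneg _) (fun n => (s n).2 i)
    exact tendsto_pow_atTop_nhds_zero_of_lt_one (by norm_num) (by norm_num)
  exact tendsto_nhds_unique h1 h2

end

/-- `UU` is the Urysohn space. -/
theorem urysohn (s : Finset UU) (f : UU → ℝ)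
    (hf : ∀ x ∈ s, ∀ y ∈ s, |f x - f y| ≤ dist x y ∧ dist x y ≤ f x + f y) :
    ∃ z : UU, ∀ x ∈ s, dist z x = f x := by
  rcases s.eq_empty_or_nonempty with rfl | hs
  · exact ⟨pt 0, fun x hx => absurd hx (Finset.notMem_empty x)⟩
  · have hne : Nonempty {x // x ∈ s} := hs.coe_sort
    have hK : Kt (fun i : {x // x ∈ s} => i.1) (fun i => f i.1) := by
      refine ⟨fun i j => ?_, fun i j => (hf i.1 i.2 j.1 j.2).2⟩
      have := (abs_le.1 (hf i.1 i.2 j.1 j.2).1).2
      show f i.1 ≤ f j.1 + dist j.1 i.1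
      rw [dist_comm]
      linarith
    obtain ⟨z, hz⟩ := exact_ext hK
    exact ⟨z, fun x hx => hz ⟨x, hx⟩⟩

end Pool.Agent.Y381.Shk
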